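import Mathlib

set_option autoImplicit false

namespace Pool.Agent.Results.MP_ea4033_co.Dism

open Finset Relation
open scoped Classical

/-- columns -/
abbrev Vec (ι : Type) := ι → ZMod 2

variable {ι κ : Type}

/-- circuits: minimal nonempty sets of columns with sum zero -/
def Circ (S : Finset (Vec ι)) (Z : Finset S) : Prop :=
  Minimal (fun Z : Finset S => Z.Nonempty ∧ ∑ e ∈ Z, (e : Vec ι) = 0) Z

/-- cocircuits: minimal nonempty sets meeting every circuit evenly -/
def Cocirc (S : Finset (Vec ι)) (C : Finset S) : Prop :=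
  Minimal (fun C : Finset S => C.Nonempty ∧ ∀ Z, Circ S Z → Even (Z ∩ C).card) C

def Hom {S : Finset (Vec ι)} {T : Finset (Vec κ)} (τ : S → T) : Prop :=
  ∀ Z, Circ S Z → ∑ e ∈ Z, (τ e : Vec κ) = 0

def Adj {S : Finset (Vec ι)} {T : Finset (Vec κ)} (τ σ : S → T) : Prop :=
  Hom τ ∧ Hom σ ∧ τ ≠ σ ∧ ∃ C c, Cocirc S C ∧
    ∀ e, (σ e : Vec κ) = if e ∈ C then (τ e : Vec κ) + c else τ e

/-- `Col(S,T)` is connected -/
def Conn (S : Finset (Vec ι)) (T : Finset (Vec κ)) : Prop :=
  ∀ τ σ : S → T, Hom τ → Hom σ → ReflTransGen Adj τ σ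

/-- `U` is the image of a dismantling retraction of `T` -/
def Dis (T U : Finset (Vec κ)) : Prop :=
  ∃ ρ : T → T, Adj id ρ ∧ ρ ∘ ρ = ρ ∧ U = univ.image fun e => (ρ e : Vec κ)

theorem z2 : ∀ a : ZMod 2, a = 0 ∨ a = 1 := by decide

theorem vv (v : Vec κ) : v + v = 0 := by
  funext i
  rcases z2 (v i) with h | h <;> simp [h]
  rfl

theorem ext {S : Finset (Vec ι)} {W : Type} [AddCommGroup W] [Module (ZMod 2) W] (τ : S → W)
    (h : ∀ Z, Circ S Z → ∑ e ∈ Z, τ e = 0) :
    ∃ L : Vec ι →ₗ[ZMod 2] W, ∀ e : S, L e = τ e := by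
  have cyc : ∀ Z : Finset S, ∑ e ∈ Z, (e : Vec ι) = 0 → ∑ e ∈ Z, τ e = 0 := by
    intro Z
    induction Z using Finset.strongInduction with
    | H Z ih =>
      intro hZ
      rcases Z.eq_empty_or_nonempty with rfl | hne
      · simp
      obtain ⟨Y, hY, hm⟩ := exists_minimal_le_of_wellFoundedLT
        (fun Z : Finset S => Z.Nonempty ∧ ∑ e ∈ Z, (e : Vec ι) = 0) Z ⟨hne, hZ⟩
      have e1 := sum_sdiff (f := fun e : S => (e : Vec ι)) hY
      rw [← sum_sdiff hY, h Y hm, add_zero]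
      exact ih _ (sdiff_ssubset hY hm.1.1) (by rwa [hm.1.2, add_zero, hZ] at e1)
  let φ := Fintype.linearCombination (ZMod 2) fun e : S => (e : Vec ι)
  let ψ := Fintype.linearCombination (ZMod 2) τ
  have k : LinearMap.ker φ ≤ LinearMap.ker ψ := by
    intro x hx
    have e : ∀ {W : Type} [AddCommGroup W] [Module (ZMod 2) W] (g : S → W),
        ∑ e, x e • g e = ∑ e with x e = 1, g e := by
      intro W _ _ g
      rw [sum_filter]
      exact sum_congr rfl fun e _ => by rcases z2 (x e) with j | j <;> simp [j]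
    simp only [LinearMap.mem_ker, φ, ψ, Fintype.linearCombination_apply, e] at hx ⊢
    exact cyc _ hx
  obtain ⟨L, hL⟩ := LinearMap.exists_extend
    ((LinearMap.ker φ).liftQ ψ k ∘ₗ φ.quotKerEquivRange.symm.toLinearMap)
  refine ⟨L, fun e => ?_⟩
  have := LinearMap.congr_fun hL ⟨φ (Pi.single e 1), LinearMap.mem_range_self _ _⟩
  simp only [LinearMap.comp_apply, Submodule.subtype_apply, LinearEquiv.coe_coe,
    LinearMap.quotKerEquivRange_symm_apply_image, Submodule.mkQ_apply,
    Submodule.liftQ_apply] at this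
  simpa [φ, ψ] using this

theorem hom_of {S : Finset (Vec ι)} {T : Finset (Vec κ)} (τ : S → T) (L : Vec ι →ₗ[ZMod 2] Vec κ)
    (h : ∀ e : S, L e = τ e) : Hom τ := fun Z hZ => by
  simp only [← h, ← map_sum, hZ.1.2, map_zero]

theorem coc {S : Finset (Vec ι)} {C : Finset S} (h : Cocirc S C) :
    ∃ f : Vec ι →ₗ[ZMod 2] ZMod 2, ∀ e : S, f e = if e ∈ C then 1 else 0 :=
  ext _ fun Z hZ => by
    rw [sum_boole, filter_mem_eq_inter]
    exact (ZMod.natCast_eq_zero_iff_even).2 (h.1.2 Z hZ)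

theorem factA {T : Finset (Vec κ)} (g ψ : T → T) (h : Adj g ψ) (hg : Function.Injective g)
    (hψ : ¬ Function.Injective ψ) : ∃ ρ : T → T, Adj id ρ ∧ ρ ∘ ρ = ρ ∧ ¬ Function.Injective ρ := by
  obtain ⟨h1, h2, -, C, c, hC, h3⟩ := h
  obtain ⟨L, hL⟩ := ext _ h1
  obtain ⟨K, hK⟩ := ext _ h2
  obtain ⟨f, hf⟩ := coc hC
  let p : Equiv.Perm T := Equiv.ofBijective g (Finite.injective_iff_bijective.1 hg)
  have pw : ∀ (m : ℕ) (e : T), (L ^ m) e = (p ^ m) e := by
    intro m
    induction m with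
    | zero => simp
    | succ m ih => intro e; rw [pow_succ, pow_succ, Module.End.mul_apply, hL, ih]; rfl
  obtain ⟨m, hm⟩ : ∃ m, orderOf p = m + 1 := ⟨_, (Nat.succ_pred_eq_of_pos (orderOf_pos p)).symm⟩
  have inv : ∀ e, (p ^ m) (g e) = e := fun e => by
    have := pow_orderOf_eq_one p
    rw [hm, pow_succ] at this
    exact congrArg (· e) this
  have e1 : ∀ e, ((p ^ m) (ψ e) : Vec κ) = if e ∈ C then (e : Vec κ) + (L ^ m) c else e := by
    intro e
    rw [← pw, h3]
    split_ifs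
    · rw [map_add, pw, inv]
    · rw [pw, inv]
  have ni : ¬ Function.Injective fun e => (p ^ m) (ψ e) := fun k => hψ (.of_comp k)
  have fc : f ((L ^ m) c) = 1 := by
    obtain ⟨a, b, k1, k2⟩ := Function.not_injective_iff.1 ni
    have k3 := (e1 a).symm.trans ((congrArg Subtype.val k1).trans (e1 b))
    have k4 := congrArg f k3
    have k5 := hf a
    have k6 := hf b
    have k7 := Subtype.val_injective.ne k2
    refine (z2 _).resolve_left fun j => ?_
    by_cases ha : a ∈ C <;> by_cases hb : b ∈ C <;>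
      simp only [ha, hb, if_true, if_false, map_add, j, add_zero, add_left_inj] at k3 k4 k5 k6
    · exact k7 k3
    · exact absurd (k5.symm.trans (k4.trans k6)) (by decide)
    · exact absurd (k5.symm.trans (k4.trans k6)) (by decide)
    · exact k7 k3
  refine ⟨fun e => (p ^ m) (ψ e), ⟨hom_of _ .id fun _ => rfl,
    hom_of _ ((L ^ m) ∘ₗ K) fun e => by rw [LinearMap.comp_apply, hK, pw],
    fun k => ni (k ▸ Function.injective_id), C, _, hC, e1⟩, ?_, ni⟩
  funext e
  refine Subtype.ext ((e1 _).trans (if_neg fun k => ?_))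
  have k1 := hf ((p ^ m) (ψ e))
  rw [if_pos k, e1] at k1
  have k2 := hf e
  by_cases he : e ∈ C <;> simp only [he, if_true, if_false, map_add, fc] at k1 k2 <;>
    rw [k2] at k1 <;> exact absurd k1 (by decide)

theorem factB {T : Finset (Vec κ)} (hi : ∀ σ : T → T, Hom σ → Function.Injective σ)
    (x y : T) (hxy : x ≠ y) :
    ¬ Conn (univ.image fun q : T × T => (Sum.elim q.1.1 q.2.1 : Vec (κ ⊕ κ))) T := by
  intro h
  set S := univ.image fun q : T × T => (Sum.elim q.1.1 q.2.1 : Vec (κ ⊕ κ)) with hS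
  let j : T → T → S := fun a b => ⟨Sum.elim a.1 b.1, mem_image.2 ⟨(a, b), mem_univ _, rfl⟩⟩
  have m1 : ∀ e : S, e.1 ∘ Sum.inl ∈ T ∧ e.1 ∘ Sum.inr ∈ T := by
    rintro ⟨e, he⟩
    obtain ⟨q, -, rfl⟩ := mem_image.1 he
    exact ⟨q.1.2, q.2.2⟩
  have key : ∀ τ σ : S → T, Adj τ σ → (∀ a b b', τ (j a b) = τ (j a b')) →
      ∀ a b b', σ (j a b) = σ (j a b') := by
    rintro τ σ ⟨h1, -, -, C, c, hC, h3⟩ hτ a b b'
    obtain ⟨L, hL⟩ := ext _ h1
    obtain ⟨f, hf⟩ := coc hC
    by_contra k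
    have k' := Subtype.val_injective.ne k
    rw [h3, h3, hτ a b b'] at k'
    have c0 : c ≠ 0 := by rintro rfl; simp at k'
    have fb : ∀ u, f (j u b) + f (j u b') = 1 := by
      intro u
      have : f (j u b) + f (j u b') = f (j a b) + f (j a b') := by
        rw [← map_add, ← map_add]
        congr 1
        funext i
        rcases i with i | i
        · exact (congrFun (vv u.1) i).trans (congrFun (vv a.1) i).symm
        · rfl
      rw [this, hf, hf]
      split_ifs at k' ⊢ <;> first | exact absurd rfl k' | decide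
    have g1 : Function.Surjective fun u => τ (j u u) :=
      Finite.surjective_of_injective (hi _ (hom_of _ (L ∘ₗ LinearMap.funLeft _ _ (Sum.elim id id))
        fun e => by
          rw [← hL]
          refine congrArg L (funext fun i => ?_)
          rcases i with i | i <;> rfl))
    have per : ∀ v ∈ T, v + c ∈ T := by
      intro v hv
      obtain ⟨u, hu⟩ := g1 ⟨v, hv⟩
      have n1 := (σ (j u b)).2
      have n2 := (σ (j u b')).2
      have n3 := fb u
      rw [h3, hτ u b u, show τ (j u u) = _ from hu] at n1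
      rw [h3, hτ u b' u, show τ (j u u) = _ from hu] at n2
      rw [hf, hf] at n3
      split_ifs at n1 n2 n3 <;> first | exact n1 | exact n2 | exact absurd n3 (by decide)
    obtain ⟨i, hci⟩ : ∃ i, c i = 1 := by
      by_contra n
      exact c0 (funext fun i => (z2 _).resolve_right fun e => n ⟨i, e⟩)
    have mem : ∀ v : T, v.1 + v.1 i • c ∈ T := fun v => by
      rcases z2 (v.1 i) with e | e <;> simp [e, per]
    have := hi (fun v => ⟨_, mem v⟩) (hom_of _
      (LinearMap.id + (LinearMap.proj i).smulRight c) fun _ => rfl)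
      (a₁ := a) (a₂ := ⟨_, per _ a.2⟩) (Subtype.ext (by
        simp only [Pi.add_apply, hci, add_smul, one_smul]
        linear_combination -vv c))
    exact c0 (by simpa using congrArg Subtype.val this)
  have all : ∀ σ : S → T, ReflTransGen Adj (fun e => ⟨_, (m1 e).1⟩) σ →
      ∀ a b b', σ (j a b) = σ (j a b') := by
    intro σ hσ
    induction hσ with
    | refl => intros; rfl
    | tail _ k ih => exact key _ _ k ih
  exact hxy (all _ (h _ (fun e => ⟨_, (m1 e).2⟩) (hom_of _ (LinearMap.funLeft _ _ Sum.inl)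
    fun _ => rfl) (hom_of _ (LinearMap.funLeft _ _ Sum.inr) fun _ => rfl)) x x y)

theorem down {S : Finset (Vec ι)} {T : Finset (Vec κ)} (ρ : T → T) (h1 : Hom ρ) (h2 : ρ ∘ ρ = ρ)
    (h : Conn S T) : Conn S (univ.image fun e => (ρ e : Vec κ)) := by
  set U := univ.image fun e => (ρ e : Vec κ)
  obtain ⟨L, hL⟩ := ext _ h1
  have sub : ∀ u : U, u.1 ∈ T := fun u => by
    obtain ⟨e, -, he⟩ := mem_image.1 u.2
    exact he ▸ (ρ e).2
  let r : T → U := fun e => ⟨ρ e, mem_image_of_mem _ (mem_univ _)⟩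
  have back : ∀ τ : S → U, (r ∘ fun e => ⟨τ e, sub _⟩) = τ := fun τ => by
    funext e
    obtain ⟨a, -, ha⟩ := mem_image.1 (τ e).2
    refine Subtype.ext (Eq.trans ?_ ha)
    rw [← congrFun h2 a]
    exact congrArg (fun z => (ρ z : Vec κ)) (Subtype.ext ha.symm)
  have hr : ∀ τ : S → T, Hom τ → Hom (r ∘ τ) := fun τ k => by
    obtain ⟨K, hK⟩ := ext _ k
    exact hom_of _ (L ∘ₗ K) fun e => by rw [LinearMap.comp_apply, hK, hL]; rfl
  intro τ σ hτ hσ
  rw [← back τ, ← back σ]
  have := h (fun e => ⟨τ e, sub _⟩) (fun e => ⟨σ e, sub _⟩) hτ hσ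
  generalize (fun e => (⟨σ e, sub _⟩ : T)) = σ' at this
  induction this with
  | refl => rfl
  | @tail a b _ k ih =>
    by_cases e : r ∘ a = r ∘ b
    · exact e ▸ ih
    obtain ⟨k1, k2, -, C, c, hC, k3⟩ := k
    refine ih.tail ⟨hr _ k1, hr _ k2, e, C, L c, hC, fun e => ?_⟩
    change (ρ (b e) : Vec κ) = if e ∈ C then (ρ (a e) : Vec κ) + L c else ρ (a e)
    rw [← hL, ← hL, k3]
    split_ifs <;> simp

theorem result (κ : Type) [Finite κ] (T : Finset (Vec κ)) (hT : T.Nonempty)
    (h : ∀ (ι : Type) [Finite ι] (S : Finset (Vec ι)), Conn S T) :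
    ∃ U, ReflTransGen Dis T U ∧ U.card = 1 := by
  induction T using Finset.strongInduction with
  | H T ih =>
    by_cases h1 : T.card = 1
    · exact ⟨T, .refl, h1⟩
    obtain ⟨x, hx, y, hy, hxy⟩ := one_lt_card.1 (show 1 < T.card by
      have := hT.card_pos
      omega)
    obtain ⟨σ, s1, s2⟩ : ∃ σ : T → T, Hom σ ∧ ¬ Function.Injective σ := by
      by_contra k
      push Not at k
      exact factB k ⟨x, hx⟩ ⟨y, hy⟩ (by simpa using hxy) (h _ _)
    obtain ⟨ρ, r1, r2, r3⟩ : ∃ ρ : T → T, Adj id ρ ∧ ρ ∘ ρ = ρ ∧ ¬ Function.Injective ρ := by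
      have := h _ T id σ (hom_of _ .id fun _ => rfl) s1
      clear s1
      induction this with
      | refl => exact absurd Function.injective_id s2
      | @tail a b _ k ih =>
        by_cases e : Function.Injective a
        · exact factA a b k e s2
        · exact ih e
    obtain ⟨U, u1, u2⟩ := ih (univ.image fun e => (ρ e : Vec κ)) (by
      refine ⟨fun v hv => ?_, fun k => r3 (Finite.injective_iff_surjective.2 fun v => ?_)⟩
      · obtain ⟨e, -, rfl⟩ := mem_image.1 hv
        exact (ρ e).2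
      · obtain ⟨e, -, he⟩ := mem_image.1 (k v.2)
        exact ⟨e, Subtype.ext he⟩) ⟨_, mem_image_of_mem _ (mem_univ ⟨x, hx⟩)⟩
      fun ι _ S => down ρ r1.2.1 r2 (h ι S)
    exact ⟨U, .head ⟨ρ, r1, r2, rfl⟩ u1, u2⟩

end Pool.Agent.Results.MP_ea4033_co.Dism
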